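import Pool.Agent.Lib.MP_2e793b_nt.Iface

/-!
MP_2e793b_nt, module DIL: dilation by a prime `q ≡ -1 mod 4T`.
-/

set_option autoImplicit false

namespace Pool.Agent.Lib.MP_2e793b_nt.H36

open Finset

/-- a prime `q ≡ 3 mod 4` dividing `u² + v²` divides both -/
theorem dvd_both {q u v : ℕ} (hq : q.Prime) (h3 : q % 4 = 3) (h : q ∣ u ^ 2 + v ^ 2) :
    q ∣ u ∧ q ∣ v := by
  have : Fact q.Prime := ⟨hq⟩
  have h0 : ((u : ZMod q) ^ 2 + (v : ZMod q) ^ 2) = 0 := by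
    have := (ZMod.natCast_eq_zero_iff (u ^ 2 + v ^ 2) q).mpr h
    push_cast at this
    exact this
  have hv : (v : ZMod q) = 0 := by
    by_contra hv
    have hs : IsSquare (-1 : ZMod q) := by
      refine ⟨(u : ZMod q) / v, ?_⟩
      field_simp
      linear_combination -h0
    exact (ZMod.exists_sq_eq_neg_one_iff.mp hs) h3
  have hu : (u : ZMod q) = 0 := by
    rw [hv] at h0
    simpa using h0
  exact ⟨(ZMod.natCast_eq_zero_iff u q).mp hu, (ZMod.natCast_eq_zero_iff v q).mp hv⟩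

theorem mem_prs {n : ℕ} {p : ℕ × ℕ} : p ∈ prs n ↔ p.1 ^ 2 + p.2 ^ 2 = n := by
  unfold prs
  rw [mem_filter, mem_product, mem_range, mem_range]
  constructor
  · exact fun h => h.2
  · intro h
    refine ⟨⟨?_, ?_⟩, h⟩
    · nlinarith [Nat.zero_le (p.2 ^ 2), sq_nonneg (p.1 : ℤ), Nat.le_self_pow (n := 2) (by norm_num) p.1]
    · nlinarith [Nat.zero_le (p.1 ^ 2), Nat.le_self_pow (n := 2) (by norm_num) p.2]

theorem prs_mul {m q : ℕ} (hq : q.Prime) (h3 : q % 4 = 3) :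
    prs (m * q ^ 2) = (prs m).image (fun p : ℕ × ℕ => (q * p.1, q * p.2)) := by
  ext ⟨u, v⟩
  rw [mem_image, mem_prs]
  constructor
  · intro h
    have h : u ^ 2 + v ^ 2 = m * q ^ 2 := h
    obtain ⟨⟨a, rfl⟩, ⟨c, rfl⟩⟩ := dvd_both (u := u) (v := v) hq h3
      (h ▸ (Dvd.dvd.mul_left (dvd_pow_self q (by norm_num)) m))
    refine ⟨(a, c), mem_prs.mpr ?_, rfl⟩
    have hpos : 0 < q ^ 2 := pow_pos hq.pos 2
    have e : (a ^ 2 + c ^ 2) * q ^ 2 = m * q ^ 2 := by rw [← h]; ring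
    exact Nat.eq_of_mul_eq_mul_right hpos e
  · rintro ⟨⟨a, c⟩, hac, e⟩
    have hac := mem_prs.mp hac
    simp only [Prod.mk.injEq] at e
    obtain ⟨rfl, rfl⟩ := e
    show (q * a) ^ 2 + (q * c) ^ 2 = m * q ^ 2
    have hac : a ^ 2 + c ^ 2 = m := hac
    rw [← hac]
    ring

theorem inj {q : ℕ} (hq : q.Prime) : Function.Injective (fun p : ℕ × ℕ => (q * p.1, q * p.2)) := by
  rintro ⟨a, c⟩ ⟨a', c'⟩ h
  simp only [Prod.mk.injEq] at h
  have h1 := Nat.eq_of_mul_eq_mul_left hq.pos h.1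
  have h2 := Nat.eq_of_mul_eq_mul_left hq.pos h.2
  rw [h1, h2]

theorem per {T q : ℕ} {w : ℕ → ℝ} (hT : 1 ≤ T) (hq : q % (4 * T) = 4 * T - 1)
    (hw : ∀ u, w (u + T) = w u) (u : ℕ) : w (q * u) = w ((T - 1) * u) := by
  have hP : Function.Periodic w T := hw
  obtain ⟨t, ht⟩ : ∃ t, q = (4 * T) * t + (4 * T - 1) := ⟨q / (4 * T), by
    have := Nat.div_add_mod q (4 * T)
    omega⟩
  have e : q * u = (T - 1) * u + ((4 * t + 3) * u) * T := by
    obtain ⟨S, rfl⟩ : ∃ S, T = S + 1 := ⟨T - 1, by omega⟩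
    have h1 : 4 * (S + 1) - 1 = 4 * S + 3 := by omega
    have h2 : S + 1 - 1 = S := by omega
    rw [ht, h1, h2]
    ring
  rw [e]
  have := hP.nat_mul ((4 * t + 3) * u)
  exact this ((T - 1) * u)

/-- DIL. -/
theorem dil : DilStmt := by
  intro T m q w hT hm hq hmod hw
  have h3 : q % 4 = 3 := by
    obtain ⟨t, ht⟩ : ∃ t, q = (4 * T) * t + (4 * T - 1) := ⟨q / (4 * T), by
      have := Nat.div_add_mod q (4 * T)
      omega⟩
    obtain ⟨S, rfl⟩ : ∃ S, T = S + 1 := ⟨T - 1, by omega⟩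
    have h1 : 4 * (S + 1) - 1 = 4 * S + 3 := by omega
    rw [h1] at ht
    have : q = 4 * ((S + 1) * t + S) + 3 := by rw [ht]; ring
    omega
  constructor
  · unfold RR
    rw [prs_mul hq h3, sum_image (fun x _ y _ h => inj hq h)]
    refine sum_congr rfl fun p _ => ?_
    simp only
    rw [per hT hmod hw, per hT hmod hw]
  · unfold rep
    rw [prs_mul hq h3, card_image_of_injective _ (inj hq)]

end Pool.Agent.Lib.MP_2e793b_nt.H36
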